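import Mathlib

/-!
# Sublattices on which an alternating form is divisible

An integral alternating form `α` on `ℤ⁴` is a class in the second cohomology of the 4-torus; its restriction to a
sublattice is the pull back to the finite covering given by the sublattice.
-/

namespace Pool.Agent.Helper17.SA

private lemma exists_coprime_zero (a b : ℤ) : ∃ s t m n : ℤ, s * m + t * n = 1 ∧ a * s + b * t = 0 := by
  by_cases h : a = 0 ∧ b = 0
  · exact ⟨1, 0, 1, 0, by norm_num, by rw [h.1, h.2]; norm_num⟩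
  · have h0 : 0 < Int.gcd a b := Int.gcd_pos_iff.2 (by tauto)
    obtain ⟨a', b', h1, h2, h3⟩ := Int.exists_gcd_one h0
    have h4 : IsCoprime a' b' := Int.isCoprime_iff_gcd_eq_one.2 h1
    obtain ⟨u, v, huv⟩ := h4
    refine ⟨b', -a', v, -u, by linarith, ?_⟩
    linear_combination b' * h2 - a' * h3

private lemma form_eq (α : (Fin 4 → ℤ) →ₗ[ℤ] (Fin 4 → ℤ) →ₗ[ℤ] ℤ) (hα : ∀ x, α x x = 0) :
    ∃ a01 a02 a03 a12 a13 a23 : ℤ, ∀ x y, α x y = a01 * (x 0 * y 1 - x 1 * y 0) +
      a02 * (x 0 * y 2 - x 2 * y 0) + a03 * (x 0 * y 3 - x 3 * y 0) + a12 * (x 1 * y 2 - x 2 * y 1) +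
      a13 * (x 1 * y 3 - x 3 * y 1) + a23 * (x 2 * y 3 - x 3 * y 2) := by
  set e : Fin 4 → Fin 4 → ℤ := fun i j => if i = j then 1 else 0 with he
  have hskew : ∀ x y, α x y = - α y x := by
    intro x y
    have h1 := hα (x + y)
    simp only [map_add, LinearMap.add_apply, hα] at h1
    linarith
  refine ⟨α (e 0) (e 1), α (e 0) (e 2), α (e 0) (e 3), α (e 1) (e 2), α (e 1) (e 3), α (e 2) (e 3),
    fun x y => ?_⟩
  have h1 : α x = ∑ i, x i • α (e i) := LinearMap.pi_apply_eq_sum_univ α x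
  have h2 : ∀ i, α (e i) y = ∑ j, y j • α (e i) (e j) := fun i =>
    LinearMap.pi_apply_eq_sum_univ (α (e i)) y
  rw [h1]
  simp only [Fin.sum_univ_four, LinearMap.add_apply, LinearMap.smul_apply, h2, smul_eq_mul, hα]
  rw [hskew (e 1) (e 0), hskew (e 2) (e 0), hskew (e 3) (e 0), hskew (e 2) (e 1), hskew (e 3) (e 1),
    hskew (e 3) (e 2)]
  ring

/-- Every integral alternating form on `ℤ⁴` becomes divisible by `N` on a sublattice of index `N ^ 2`. -/
theorem exists_sublattice (N : ℕ) (hN : 0 < N) (α : (Fin 4 → ℤ) →ₗ[ℤ] (Fin 4 → ℤ) →ₗ[ℤ] ℤ)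
    (hα : ∀ x, α x x = 0) :
    ∃ L : AddSubgroup (Fin 4 → ℤ), L.index = N ^ 2 ∧ ∀ x ∈ L, ∀ y ∈ L, (N : ℤ) ∣ α x y := by
  have : NeZero N := ⟨hN.ne'⟩
  obtain ⟨a01, a02, a03, a12, a13, a23, hform⟩ := form_eq α hα
  obtain ⟨s, t, m, n, h1, h2⟩ := exists_coprime_zero a01 a02
  let Φ : (Fin 4 → ℤ) →+ ZMod N × ZMod N :=
    { toFun := fun x => (((t * x 1 - s * x 2 : ℤ) : ZMod N), ((x 3 : ℤ) : ZMod N))
      map_zero' := by simp
      map_add' := by
        intro x y
        ext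
        · simp only [Pi.add_apply, Prod.fst_add]
          push_cast
          ring
        · simp only [Pi.add_apply, Prod.snd_add]
          push_cast
          ring }
  have hsurj : Function.Surjective Φ := by
    rintro ⟨u, w⟩
    obtain ⟨u', rfl⟩ := ZMod.intCast_surjective u
    obtain ⟨w', rfl⟩ := ZMod.intCast_surjective w
    refine ⟨![0, n * u', -(m * u'), w'], ?_⟩
    have h3 : t * (n * u') - s * (-(m * u')) = u' := by linear_combination u' * h1
    change (((t * (n * u') - s * (-(m * u')) : ℤ) : ZMod N), ((w' : ℤ) : ZMod N)) = _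
    rw [h3]
  refine ⟨Φ.ker, ?_, ?_⟩
  · rw [AddSubgroup.index_ker, AddMonoidHom.range_eq_top.2 hsurj]
    rw [Nat.card_congr (AddSubgroup.topEquiv (G := ZMod N × ZMod N)).toEquiv, Nat.card_prod, Nat.card_zmod, sq]
  · intro x hx y hy
    have key : ∀ z ∈ Φ.ker, (N : ℤ) ∣ t * z 1 - s * z 2 ∧ (N : ℤ) ∣ z 3 := by
      intro z hz
      rw [AddMonoidHom.mem_ker] at hz
      have e1 : ((t * z 1 - s * z 2 : ℤ) : ZMod N) = 0 := congrArg Prod.fst hz
      have e2 : ((z 3 : ℤ) : ZMod N) = 0 := congrArg Prod.snd hz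
      exact ⟨(ZMod.intCast_zmod_eq_zero_iff_dvd _ _).1 e1, (ZMod.intCast_zmod_eq_zero_iff_dvd _ _).1 e2⟩
    obtain ⟨⟨k, hk⟩, ⟨l, hl⟩⟩ := key x hx
    obtain ⟨⟨k', hk'⟩, ⟨l', hl'⟩⟩ := key y hy
    set c := m * x 1 + n * x 2 with hc
    set c' := m * y 1 + n * y 2 with hc'
    have x1 : x 1 = s * c + n * (N * k) := by rw [← hk, hc]; linear_combination (-(x 1)) * h1
    have x2 : x 2 = t * c - m * (N * k) := by rw [← hk, hc]; linear_combination (-(x 2)) * h1
    have y1 : y 1 = s * c' + n * (N * k') := by rw [← hk', hc']; linear_combination (-(y 1)) * h1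
    have y2 : y 2 = t * c' - m * (N * k') := by rw [← hk', hc']; linear_combination (-(y 2)) * h1
    rw [hform]
    refine ⟨a01 * (x 0 * n * k' - n * k * y 0) + a02 * (m * k * y 0 - x 0 * m * k') +
      a03 * (x 0 * l' - l * y 0) + a12 * (-s * m * c * k' + n * t * k * c' - t * n * c * k' + m * s * k * c') +
      a13 * (x 1 * l' - l * y 1) + a23 * (x 2 * l' - l * y 2), ?_⟩
    rw [hl, hl']
    clear_value c c'
    generalize x 0 = X0 at *
    generalize y 0 = Y0 at *
    generalize x 1 = X1 at *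
    generalize x 2 = X2 at *
    generalize y 1 = Y1 at *
    generalize y 2 = Y2 at *
    subst x1 x2 y1 y2
    linear_combination (X0 * c' - c * Y0) * h2

end Pool.Agent.Helper17.SA
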