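import Mathlib

/-!
# The characteristic numbers of the cyclic covering

`T` is the 4-torus, `α` the class of a symplectic surface `C` in `T` (an integral alternating form on `ℤ⁴`, with the
intersection form `wedge`), whose normalisation has Euler number `χ`, with `q` ordinary `r`-fold points as its only
singularities.  Let `T'` be a covering of `T` with `d` sheets (a sublattice of index `d`, given by a matrix `A` with
`det A = d`), blown up in the `d q` points over the singular points of `C`.  Its second cohomology is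
`(alternating forms) × ℤ^{d q}` with the intersection form `inter`, its canonical class is `canon = ∑ E_i = (0, 1)`, its
Euler number is `d q`, and the proper transform `D` of the preimage of `C` has the class `proper = (A^* α, - r)` and the
Euler number `d χ`.  If this class is `m ℓ`, the `m`-fold cyclic covering `Y` branched along `D` has the Euler number
`c2 = m (d q) - (m - 1) (d χ)` and its canonical class is the pull back of `canon + (m - 1) ℓ`, so that
`c1sq = m (canon + (m - 1) ℓ)²`.
-/

namespace Pool.Agent.Helper17.SA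

open Matrix

/-- alternating forms on `ℤ⁴` -/
def IsAlt (α : Matrix (Fin 4) (Fin 4) ℤ) : Prop := αᵀ = -α

/-- the cup product of two alternating forms, evaluated on the torus -/
def wedge (α β : Matrix (Fin 4) (Fin 4) ℤ) : ℤ :=
  α 0 1 * β 2 3 - α 0 2 * β 1 3 + α 0 3 * β 1 2 + α 1 2 * β 0 3 - α 1 3 * β 0 2 + α 2 3 * β 0 1

/-- pull back of the form `α` to the sublattice spanned by the columns of `A` -/
def pull (A α : Matrix (Fin 4) (Fin 4) ℤ) : Matrix (Fin 4) (Fin 4) ℤ := Aᵀ * α * A

/-- the intersection form of the torus blown up in `k` points -/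
def inter {k : ℕ} (u v : Matrix (Fin 4) (Fin 4) ℤ × (Fin k → ℤ)) : ℤ :=
  wedge u.1 v.1 - ∑ i, u.2 i * v.2 i

/-- the canonical class of the torus blown up in `k` points -/
def canon (k : ℕ) : Matrix (Fin 4) (Fin 4) ℤ × (Fin k → ℤ) := (0, fun _ => 1)

/-- the class of the proper transform of a surface of class `α` with `k` ordinary `r`-fold points (in the covering) -/
def proper (k : ℕ) (r : ℤ) (A α : Matrix (Fin 4) (Fin 4) ℤ) : Matrix (Fin 4) (Fin 4) ℤ × (Fin k → ℤ) :=
  (pull A α, fun _ => -r)

/-- the Euler number of the `m`-fold cyclic covering -/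
def c2 (m d q χ : ℤ) : ℤ := m * (d * q) - (m - 1) * (d * χ)

/-- the square of the canonical class of the `m`-fold cyclic covering -/
def c1sq {k : ℕ} (m : ℤ) (ℓ : Matrix (Fin 4) (Fin 4) ℤ × (Fin k → ℤ)) : ℤ :=
  m * inter (canon k + (m - 1) • ℓ) (canon k + (m - 1) • ℓ)

private lemma exists_coprime_zero' (a b : ℤ) : ∃ s t m n : ℤ, s * m + t * n = 1 ∧ a * s + b * t = 0 := by
  by_cases h : a = 0 ∧ b = 0
  · exact ⟨1, 0, 1, 0, by norm_num, by rw [h.1, h.2]; norm_num⟩
  · have h0 : 0 < Int.gcd a b := Int.gcd_pos_iff.2 (by tauto)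
    obtain ⟨a', b', h1, h2, h3⟩ := Int.exists_gcd_one h0
    have h4 : IsCoprime a' b' := Int.isCoprime_iff_gcd_eq_one.2 h1
    obtain ⟨u, v, huv⟩ := h4
    refine ⟨b', -a', v, -u, by linarith, ?_⟩
    linear_combination b' * h2 - a' * h3

/-- every class becomes divisible by `N` on a covering with `N ^ 2` sheets -/
theorem exists_pull (N : ℕ) {α : Matrix (Fin 4) (Fin 4) ℤ} (hα : IsAlt α) :
    ∃ A β : Matrix (Fin 4) (Fin 4) ℤ, A.det = N ^ 2 ∧ IsAlt β ∧ pull A α = (N : ℤ) • β ∧
      wedge β β = wedge α α := by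
  have hskew : ∀ i j, α j i = - α i j := fun i j => by
    have := congrFun (congrFun hα i) j
    simpa using this
  have h00 : ∀ i, α i i = 0 := fun i => by
    have := hskew i i
    omega
  obtain ⟨s, t, m, n, h1, h2⟩ := exists_coprime_zero' (α 0 1) (α 0 2)
  refine ⟨!![1, 0, 0, 0; 0, s, -(N * n), 0; 0, t, N * m, 0; 0, 0, 0, N],
    !![0, 0, -(α 0 1 * n) + α 0 2 * m, α 0 3;
       0, 0, α 1 2, α 1 3 * s + α 2 3 * t;
       -(-(α 0 1 * n) + α 0 2 * m), -α 1 2, 0, N * (-(α 1 3 * n) + α 2 3 * m);
       -α 0 3, -(α 1 3 * s + α 2 3 * t), -(N * (-(α 1 3 * n) + α 2 3 * m)), 0], ?_, ?_, ?_, ?_⟩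
  · simp [Matrix.det_succ_row_zero, Fin.sum_univ_succ, Fin.succAbove]
    linear_combination (N : ℤ) ^ 2 * h1
  · unfold IsAlt
    ext i j
    fin_cases i <;> fin_cases j <;> simp
  · have e10 := hskew 0 1
    have e20 := hskew 0 2
    have e30 := hskew 0 3
    have e21 := hskew 1 2
    have e31 := hskew 1 3
    have e32 := hskew 2 3
    ext i j
    fin_cases i <;> fin_cases j <;>
      simp [pull, Matrix.mul_apply, Fin.sum_univ_four, h00, e10, e20, e30, e21, e31, e32]
    all_goals first
      | ring1
      | linear_combination h2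
      | linear_combination -h2
      | linear_combination ((N : ℤ) * α 1 2) * h1
      | linear_combination -((N : ℤ) * α 1 2) * h1
  · simp only [wedge, Matrix.of_apply, Matrix.cons_val', Matrix.cons_val_zero, Matrix.cons_val_one,
      Matrix.cons_val]
    linear_combination 2 * (n * α 1 3 - m * α 2 3) * h2 + 2 * (α 0 1 * α 2 3 - α 0 2 * α 1 3) * h1

/-- A class `α` of square 62, with two ordinary 6-fold points and normalisation of Euler number `-2`: on a covering with
36 sheets, blown up in 72 points, the proper transform is 6 times a class `ℓ`, the adjunction formula holds, and the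
6-fold cyclic covering has `c₁² = 2388`, `c₂ = 792`. -/
theorem numbers {α : Matrix (Fin 4) (Fin 4) ℤ} (hα : IsAlt α) (h : wedge α α = 62) :
    ∃ (A : Matrix (Fin 4) (Fin 4) ℤ) (ℓ : Matrix (Fin 4) (Fin 4) ℤ × (Fin 72 → ℤ)), A.det = 36 ∧ IsAlt ℓ.1 ∧
      proper 72 6 A α = (6 : ℤ) • ℓ ∧
      inter (proper 72 6 A α) (proper 72 6 A α) + inter (canon 72) (proper 72 6 A α) = -(36 * (-2)) ∧
      c1sq 6 ℓ = 2388 ∧ c2 6 36 2 (-2) = 792 := by
  obtain ⟨A, β, h1, h2, h3, h4⟩ := exists_pull 6 hα
  have h5 : wedge β β = 62 := by rw [h4, h]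
  have hp : proper 72 6 A α = (6 : ℤ) • ((β, fun _ => -1) : Matrix (Fin 4) (Fin 4) ℤ × (Fin 72 → ℤ)) := by
    have h3' : pull A α = (6 : ℤ) • β := by
      rw [h3]
      norm_num
    unfold proper
    rw [h3', Prod.smul_mk]
    congr 1
  refine ⟨A, (β, fun _ => -1), by rw [h1]; norm_num, h2, hp, ?_, ?_, by unfold c2; norm_num⟩
  · rw [hp]
    unfold wedge at h5
    simp only [inter, canon, wedge, Prod.smul_mk, Matrix.smul_apply, Matrix.zero_apply, smul_eq_mul,
      Pi.smul_apply, Finset.sum_const, Finset.card_univ, Fintype.card_fin, nsmul_eq_mul]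
    norm_num
    linear_combination 36 * h5
  · unfold wedge at h5
    simp only [c1sq, inter, canon, wedge, Prod.smul_mk, Prod.mk_add_mk, Matrix.smul_apply, Matrix.add_apply,
      Matrix.zero_apply, smul_eq_mul, Pi.smul_apply, Pi.add_apply, Finset.sum_const, Finset.card_univ,
      Fintype.card_fin, nsmul_eq_mul]
    norm_num
    linear_combination 150 * h5

end Pool.Agent.Helper17.SA
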